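import Pool.Agent.Lib.SmL.Cnt.Final
import Pool.Agent.Lib.SmL.Ch.ChebT

/-!
# SMITH-L (l odd), assembly: the conclusion of the counting half from the arithmetic of `S`

`AOk S T deg q Geo fr a C m0`: what the arithmetic half delivers (no counting data). `main_abs`: for
all base characters `chi0` unramified outside `T` the counting data `cd chi0` satisfy `LThm`.
-/

set_option autoImplicit false

open Finset

namespace Pool.Agent.SmL

variable {l : ℕ} {A G V V1 Pl : Type} [CommRing A] [Group G] [AddCommGroup V] [Module A V]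
  [DistribMulAction G V] [AddCommGroup V1] [Module (ZMod l) V1]

open Ch

/-- Everything which the arithmetic half delivers. -/
structure AOk (S : Sys l A G V V1 Pl) (T : Set Pl) (deg : Pl → ℕ) (q : ℕ) (Geo : Subgroup G)
    (fr : G) (a C m0 : ℕ) : Prop where
  ok : S.Ok
  fi : ∀ N ∈ S.NN, N.FiniteIndex
  up : ∀ N ∈ S.NN, ∀ N' : Subgroup G, N'.Normal → N ≤ N' → N' ∈ S.NN
  lagV : LagV S T
  lagF : LagF S T
  nofix : ∀ w : V1, (∀ s, S.ac s w = w) → w = 0
  span : ∀ (B : V1 →ₗ[ZMod l] V1) (ε : ZMod l), ∃ U : G →₀ ZMod l,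
    (∀ w, ∑ g ∈ U.support, U g • S.ac g w = B w) ∧ ∑ g ∈ U.support, U g = ε
  xok : (XX T deg).Ok q
  geo : CData.GeoOk (S := S) Geo fr
  cheb : ChebT S T deg Geo fr q a C
  m0_pos : 1 ≤ m0
  m0_mem : fr ^ m0 ∈ S.GN

/-- **Assembly**: the conclusion of the counting half, for one counting datum and all base
characters unramified outside `T`. -/
theorem main_abs {S : Sys l A G V V1 Pl} {T : Set Pl} {deg : Pl → ℕ} {Geo : Subgroup G} {fr : G}
    {q a C m0 : ℕ} [Nontrivial V1] (h : AOk S T deg q Geo fr a C m0) :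
    ∃ cd : CData S (XX T deg), cd.pl = Subtype.val ∧ ∀ chi0, XT S T chi0 →
      ({ cd with chi0 := chi0 } : CData S (XX T deg)).Ok ∧
      ({ cd with chi0 := chi0 } : CData S (XX T deg)).LThm := by
  obtain ⟨cd, h1, h2⟩ := exists_cdata' h.ok h.fi h.up h.lagV h.lagF h.nofix h.span deg
  refine ⟨cd, h1, fun chi0 hc => ⟨h2 chi0 hc, ?_⟩⟩
  exact CData.lThm_of h.ok (h2 chi0 hc) h.xok (fun N hN => (h.fi N hN).index_ne_zero) h.geo
    (CData.cheb_of h1 h.cheb) h.m0_pos h.m0_mem

end Pool.Agent.SmL
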